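import Pool.Agent.Work.MP_968b24_an.Basic

set_option autoImplicit false

namespace Pool.Agent.Work.MP_968b24_an

open Filter Finset

variable {x : ℕ → ℝ}

theorem Sparse.admissible (hx : Sparse x) (s : ℕ → ℝ) (B : ℝ) (hB : ∀ n, 1 ≤ n → |s n| ≤ B)
    (a : ℝ) (ha : Tendsto (fun k => abel (fun n => s (n+1)) (x k)) atTop (nhds a)) :
    AdmissibleWithLimit s (fun n => wt x (n - 1)) a := by
  refine ⟨fun n _ => hx.wt_pos _, ?_, ?_⟩
  · simp only [sum_Icc_eq, Nat.add_sub_cancel]
    exact hx.tendsto_sum_wt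
  · simp only [sum_Icc_eq, Nat.add_sub_cancel]
    exact hx.tendsto_mean (fun n => s (n+1)) B (fun n => hB _ (by omega)) a ha

theorem Sparse.antitone_strict (hx : Sparse x) (m : ℕ) : ∀ d : ℕ, x (m + (d + 1)) ≤ x m / 2 := by
  intro d
  induction d with
  | zero => exact hx.2.2 m
  | succ d ih =>
    have h1 := hx.2.2 (m + (d + 1))
    have h2 := hx.1 (m + (d+1))
    have e : m + (d + 1 + 1) = m + (d + 1) + 1 := by ring
    rw [e]
    linarith

theorem Sparse.comp (hx : Sparse x) (φ : ℕ → ℕ) (hφ : StrictMono φ) : Sparse (fun k => x (φ k)) := by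
  refine ⟨fun k => hx.1 _, hx.le_half _, fun k => ?_⟩
  have h := hφ (Nat.lt_succ_self k)
  obtain ⟨d, hd⟩ := Nat.exists_eq_add_of_lt h
  have := hx.antitone_strict (φ k) d
  simp only
  have e : φ (k+1) = φ k + (d + 1) := by rw [show k + 1 = k.succ from rfl, hd]; ring
  rw [e]
  exact this

/-- any sparse sequence of parameters produces a fully monotonic admissible sequence; its limit
is a cluster value of the Abel means along the parameters -/
theorem exists_limit (hx : Sparse x) (s : ℕ → ℝ) (B : ℝ) (hB : ∀ n, 1 ≤ n → |s n| ≤ B) :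
    ∃ (a : ℝ) (l : ℕ → ℝ), FullyMonotonic l ∧ AdmissibleWithLimit s l a ∧
      (∀ c, (∀ j, c ≤ abel (fun n => s (n+1)) (x j)) → c ≤ a) ∧
      (∀ c, (∀ j, abel (fun n => s (n+1)) (x j) ≤ c) → a ≤ c) := by
  have hb : ∀ j, abel (fun n => s (n+1)) (x j) ∈ Set.Icc (-B) B := by
    intro j
    have := abs_abel_le (fun n => s (n+1)) B (fun n => hB _ (by omega)) (x j) (hx.1 j)
      (by have := hx.le_half j; linarith)
    rw [abs_le] at this
    exact this
  obtain ⟨a, _, φ, hφ, hlim⟩ := isCompact_Icc.tendsto_subseq hb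
  have hx' := hx.comp φ hφ
  refine ⟨a, _, hx'.fullyMonotonic, hx'.admissible s B hB a hlim, ?_, ?_⟩
  · intro c hc
    exact ge_of_tendsto' hlim (fun k => hc _)
  · intro c hc
    exact le_of_tendsto' hlim (fun k => hc _)

theorem FullyMonotonic.nonincreasing {l : ℕ → ℝ} (h : FullyMonotonic l) : Nonincreasing l := by
  intro n hn
  have := h 1 n le_rfl hn
  simp only [iterDiff] at this
  linarith

theorem sparse_pow : Sparse (fun k => (1/2 : ℝ)^(k+1)) := by
  refine ⟨fun k => by positivity, by norm_num, fun k => ?_⟩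
  simp only
  rw [pow_succ _ (k+1)]
  linarith

end Pool.Agent.Work.MP_968b24_an
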