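import Pool.Agent.Work.MP_968b24_an.Exist

set_option autoImplicit false

namespace Pool.Agent.Work.MP_968b24_an

open Filter Finset

/-- block sequence -/
def g (n : ℕ) : ℝ := if Nat.log 64 n % 2 = 0 then 1 else 0

theorem g_abs (n : ℕ) : |g n| ≤ 1 := by
  unfold g; split_ifs <;> simp

theorem g_nonneg (n : ℕ) : 0 ≤ g n := by
  unfold g; split_ifs <;> norm_num

theorem g_le_one (n : ℕ) : g n ≤ 1 := by
  unfold g; split_ifs <;> norm_num

theorem g_eq (i n : ℕ) (h1 : 64 ^ i ≤ n) (h2 : n < 64 ^ (i+1)) :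
    g n = if i % 2 = 0 then 1 else 0 := by
  unfold g
  rw [Nat.log_eq_of_pow_le_of_lt_pow h1 h2]

theorem abel_lower (s : ℕ → ℝ) (hs0 : ∀ n, 0 ≤ s n) (hs1 : ∀ n, |s n| ≤ 1) (N M : ℕ) (hNM : N ≤ M)
    (h : ∀ n, N ≤ n → n < M → s n = 1) (y : ℝ) (h0 : 0 < y) (h1 : y ≤ 1) :
    (1 - y)^N - (1 - y)^M ≤ abel s y := by
  have hs := summable_abel s 1 hs1 y h0 h1
  have hnn : ∀ n, 0 ≤ y * (1 - y)^n * s n := fun n =>
    mul_nonneg (mul_nonneg h0.le (pow_nonneg (by linarith) _)) (hs0 n)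
  have h2 : ∑ n ∈ range M, y * (1 - y)^n * s n ≤ abel s y := hs.sum_le_tsum _ (fun n _ => hnn n)
  have h3 : ∑ n ∈ range M, y * (1 - y)^n * s n =
      ∑ n ∈ range N, y * (1 - y)^n * s n + ∑ n ∈ Ico N M, y * (1 - y)^n * s n :=
    (Finset.sum_range_add_sum_Ico _ hNM).symm
  have h4 : ∑ n ∈ Ico N M, y * (1 - y)^n * s n = ∑ n ∈ Ico N M, y * (1 - y)^n := by
    apply Finset.sum_congr rfl
    intro n hn
    rw [Finset.mem_Ico] at hn
    rw [h n hn.1 hn.2, mul_one]
  have h5 : ∑ n ∈ range M, y * (1 - y)^n =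
      ∑ n ∈ range N, y * (1 - y)^n + ∑ n ∈ Ico N M, y * (1 - y)^n :=
    (Finset.sum_range_add_sum_Ico _ hNM).symm
  rw [geom, geom] at h5
  have h6 : 0 ≤ ∑ n ∈ range N, y * (1 - y)^n * s n := Finset.sum_nonneg (fun n _ => hnn n)
  linarith

/-- parameters -/
noncomputable def y (i : ℕ) : ℝ := 1 / (8 * 64 ^ i)

theorem y_pos (i : ℕ) : 0 < y i := by unfold y; positivity

theorem y_le (i : ℕ) : y i ≤ 1/8 := by
  unfold y
  apply one_div_le_one_div_of_le (by norm_num)
  have : (1:ℝ) ≤ 64^i := one_le_pow₀ (by norm_num)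
  linarith

theorem abel_block (s : ℕ → ℝ) (hs0 : ∀ n, 0 ≤ s n) (hs1 : ∀ n, |s n| ≤ 1) (i : ℕ)
    (h : ∀ n, 64^i ≤ n → n < 64^(i+1) → s n = 1) : 3/4 ≤ abel s (y i) := by
  have hy := y_pos i
  have hy' := y_le i
  have h1 := abel_lower s hs0 hs1 (64^i) (64^(i+1)) (Nat.pow_le_pow_right (by norm_num) (by omega))
    h (y i) hy (by linarith)
  have h2 := one_sub_pow_le (y i) (by linarith) (64^i)
  have h3 := pow_le_inv (y i) hy.le (by linarith) (64^(i+1))
  have e1 : ((64^i : ℕ) : ℝ) * y i = 1/8 := by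
    unfold y; push_cast; field_simp
  have e2 : ((64^(i+1) : ℕ) : ℝ) * y i = 8 := by
    unfold y; push_cast; field_simp; ring
  rw [e1] at h2
  rw [e2] at h3
  norm_num at h3
  linarith

theorem abel_even (i : ℕ) (hi : i % 2 = 0) : 3/4 ≤ abel g (y i) := by
  apply abel_block g g_nonneg g_abs
  intro n h1 h2
  rw [g_eq i n h1 h2, if_pos hi]

theorem abel_odd (i : ℕ) (hi : i % 2 = 1) : abel g (y i) ≤ 1/4 := by
  have hy := y_pos i
  have hy' := y_le i
  have h1 : 3/4 ≤ abel (fun n => 1 - g n) (y i) := by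
    apply abel_block _ (fun n => by have := g_le_one n; linarith)
    · intro n
      rw [abs_of_nonneg (by have := g_le_one n; linarith)]
      have := g_nonneg n
      linarith
    · intro n h1 h2
      rw [g_eq i n h1 h2, if_neg (by omega), sub_zero]
  have h2 : abel g (y i) + abel (fun n => 1 - g n) (y i) = 1 := by
    unfold abel
    rw [← (summable_abel g 1 g_abs (y i) hy (by linarith)).tsum_add
      (summable_abel (fun n => 1 - g n) 1 (fun n => by
        rw [abs_of_nonneg (by have := g_le_one n; linarith)]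
        have := g_nonneg n
        linarith) (y i) hy (by linarith))]
    have : ∀ n, y i * (1 - y i)^n * g n + y i * (1 - y i)^n * (1 - g n) = y i * (1 - y i)^n := by
      intro n; ring
    simp only [this]
    rw [tsum_mul_left, tsum_geometric_of_lt_one (by linarith) (by linarith)]
    rw [sub_sub_cancel]
    exact mul_inv_cancel₀ hy.ne'
  linarith

theorem sparse_y (c : ℕ) : Sparse (fun k => y (2 * k + c)) := by
  refine ⟨fun k => y_pos _, by have := y_le (2*0+c); simp only; linarith, fun k => ?_⟩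
  simp only
  have e : y (2 * (k+1) + c) = y (2 * k + c) / 4096 := by
    unfold y
    rw [show 2 * (k+1) + c = (2 * k + c) + 2 by ring, pow_add]
    field_simp
    norm_num
  rw [e]
  have := y_pos (2 * k + c)
  linarith

end Pool.Agent.Work.MP_968b24_an
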