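import Pool.Agent.Work.MP_968b24_an.Defs

set_option autoImplicit false

namespace Pool.Agent.Work.MP_968b24_an

open Filter Finset

/-- the weights (indexed from `0`) -/
noncomputable def wt (x : ℕ → ℝ) (n : ℕ) : ℝ := ∑' k, x k * (1 - x k) ^ n

/-- the sequences of parameters allowed -/
def Sparse (x : ℕ → ℝ) : Prop := (∀ k, 0 < x k) ∧ x 0 ≤ 1/2 ∧ ∀ k, x (k+1) ≤ x k / 2

variable {x : ℕ → ℝ}

theorem Sparse.le_pow (hx : Sparse x) (k : ℕ) : x k ≤ (1/2) * (1/2) ^ k := by
  induction k with
  | zero => simpa using hx.2.1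
  | succ k ih =>
    have := hx.2.2 k
    rw [pow_succ]
    linarith

theorem Sparse.le_half (hx : Sparse x) (k : ℕ) : x k ≤ 1/2 := by
  have h1 := hx.le_pow k
  have h2 : ((1:ℝ)/2) ^ k ≤ 1 := pow_le_one₀ (by norm_num) (by norm_num)
  linarith

theorem Sparse.summable (hx : Sparse x) : Summable x := by
  refine Summable.of_nonneg_of_le (fun k => (hx.1 k).le) hx.le_pow ?_
  exact (summable_geometric_of_lt_one (by norm_num) (by norm_num)).mul_left _

theorem Sparse.one_sub_nonneg (hx : Sparse x) (k : ℕ) : 0 ≤ 1 - x k := by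
  have := hx.le_half k; linarith

theorem Sparse.one_sub_pos (hx : Sparse x) (k : ℕ) : 0 < 1 - x k := by
  have := hx.le_half k; linarith

theorem Sparse.one_sub_le_one (hx : Sparse x) (k : ℕ) : 1 - x k ≤ 1 := by
  have := hx.1 k; linarith

theorem Sparse.summable_pow (hx : Sparse x) (j n : ℕ) :
    Summable (fun k => x k ^ (j+1) * (1 - x k) ^ n) := by
  refine Summable.of_nonneg_of_le (fun k => ?_) (fun k => ?_) hx.summable
  · have := hx.1 k
    have := hx.one_sub_nonneg k
    positivity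
  · have h1 : x k ^ (j+1) ≤ x k := by
      rw [pow_succ]
      have h0 : x k ^ j ≤ 1 := pow_le_one₀ (hx.1 k).le (by have := hx.le_half k; linarith)
      nlinarith [hx.1 k]
    have h2 : (1 - x k) ^ n ≤ 1 := pow_le_one₀ (hx.one_sub_nonneg k) (hx.one_sub_le_one k)
    have h3 : 0 ≤ (1 - x k)^n := pow_nonneg (hx.one_sub_nonneg k) n
    have h4 : 0 ≤ x k ^ (j+1) := pow_nonneg (hx.1 k).le _
    calc x k ^ (j+1) * (1 - x k) ^ n ≤ x k ^ (j+1) * 1 := by
          exact mul_le_mul_of_nonneg_left h2 h4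
      _ ≤ x k := by rw [mul_one]; exact h1

theorem Sparse.summable_wt (hx : Sparse x) (n : ℕ) :
    Summable (fun k => x k * (1 - x k) ^ n) := by
  simpa using hx.summable_pow 0 n

theorem Sparse.wt_pos (hx : Sparse x) (n : ℕ) : 0 < wt x n := by
  refine (hx.summable_wt n).tsum_pos (fun k => ?_) 0 ?_
  · exact mul_nonneg (hx.1 k).le (pow_nonneg (hx.one_sub_nonneg k) _)
  · exact mul_pos (hx.1 0) (pow_pos (hx.one_sub_pos 0) _)

theorem Sparse.iterDiff_eq (hx : Sparse x) (j : ℕ) : ∀ n : ℕ,
    iterDiff (fun n => wt x (n - 1)) j (n+1) = ∑' k, x k ^ (j+1) * (1 - x k) ^ n := by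
  induction j with
  | zero => intro n; simp [iterDiff, wt]
  | succ j ih =>
    intro n
    simp only [iterDiff]
    rw [ih, ih, ← (hx.summable_pow j n).tsum_sub (hx.summable_pow j (n+1))]
    congr 1
    funext k
    ring

theorem Sparse.fullyMonotonic (hx : Sparse x) : FullyMonotonic (fun n => wt x (n - 1)) := by
  intro k n _ hn
  obtain ⟨m, rfl⟩ : ∃ m, n = m + 1 := ⟨n - 1, by omega⟩
  rw [hx.iterDiff_eq]
  refine tsum_nonneg (fun i => ?_)
  exact mul_nonneg (pow_nonneg (hx.1 i).le _) (pow_nonneg (hx.one_sub_nonneg i) _)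

theorem sum_Icc_eq (f : ℕ → ℝ) (n : ℕ) : ∑ i ∈ Icc 1 n, f i = ∑ i ∈ range n, f (i+1) := by
  induction n with
  | zero => simp
  | succ n ih =>
    rw [Finset.sum_Icc_succ_top (by omega), Finset.sum_range_succ, ih]

theorem geom (y : ℝ) (N : ℕ) : ∑ n ∈ range N, y * (1 - y) ^ n = 1 - (1 - y) ^ N := by
  induction N with
  | zero => simp
  | succ N ih => rw [Finset.sum_range_succ, ih]; ring

theorem pow_le_inv (y : ℝ) (h0 : 0 ≤ y) (h1 : y ≤ 1) (N : ℕ) :
    (1 - y) ^ N ≤ 1 / (1 + N * y) := by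
  have h2 : 1 + (N:ℝ) * y ≤ (1 + y) ^ N := one_add_mul_le_pow (by linarith) N
  have h3 : (1 - y) ^ N * (1 + y) ^ N ≤ 1 := by
    rw [← mul_pow]
    exact pow_le_one₀ (mul_nonneg (by linarith) (by linarith)) (by nlinarith)
  have h4 : 0 < 1 + (N:ℝ) * y := by positivity
  rw [le_div_iff₀ h4]
  have h5 : 0 ≤ (1-y)^N := pow_nonneg (by linarith) _
  calc (1 - y) ^ N * (1 + N * y) ≤ (1-y)^N * (1 + y)^N := mul_le_mul_of_nonneg_left h2 h5
    _ ≤ 1 := h3

theorem one_sub_pow_le (y : ℝ) (h1 : y ≤ 1) (N : ℕ) :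
    1 - (1 - y) ^ N ≤ N * y := by
  have h2 : 1 + (N:ℝ) * (-y) ≤ (1 + (-y)) ^ N := one_add_mul_le_pow (by linarith) N
  have h3 : (1 + (-y)) ^ N = (1 - y)^N := by ring
  rw [h3] at h2
  linarith

/-- telescoping bound -/
theorem min_le_tele (u v : ℝ) (hv : 0 ≤ v) (hu : 0 ≤ u) (huv : v ≤ u / 2) :
    min (1 / (1 + u)) u ≤ 6 * (u / (1 + u) - v / (1 + v)) := by
  have h1 : v / (1 + v) ≤ u / (2 + u) := by
    rw [div_le_div_iff₀ (by linarith) (by linarith)]
    nlinarith
  have h2 : u / (1 + u) - u / (2 + u) = u / ((1 + u) * (2 + u)) := by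
    field_simp
    ring
  have h3 : min (1 / (1 + u)) u ≤ 6 * (u / ((1 + u) * (2 + u))) := by
    rcases le_total u 1 with h | h
    · refine (min_le_right _ _).trans ?_
      rw [← mul_div_assoc, le_div_iff₀ (by positivity)]
      nlinarith [mul_nonneg hu (mul_nonneg hu (sub_nonneg.mpr h)), mul_nonneg hu (sub_nonneg.mpr h)]
    · refine (min_le_left _ _).trans ?_
      rw [← mul_div_assoc, div_le_div_iff₀ (by positivity) (by positivity)]
      nlinarith
  linarith

/-- the error terms -/
noncomputable def er (x : ℕ → ℝ) (N k : ℕ) : ℝ := min ((1 - x k) ^ N) (1 - (1 - x k) ^ N)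

theorem Sparse.pow_le_one (hx : Sparse x) (N k : ℕ) : (1 - x k)^N ≤ 1 :=
  pow_le_one₀ (hx.one_sub_nonneg k) (hx.one_sub_le_one k)

theorem Sparse.er_nonneg (hx : Sparse x) (N k : ℕ) : 0 ≤ er x N k := by
  refine le_min (pow_nonneg (hx.one_sub_nonneg k) _) ?_
  have := hx.pow_le_one N k
  linarith

theorem Sparse.er_sum_le (hx : Sparse x) (N K : ℕ) : ∑ k ∈ range K, er x N k ≤ 6 := by
  have key : ∀ K : ℕ, ∑ k ∈ range K, er x N k ≤
      6 * ((N * x 0) / (1 + N * x 0) - (N * x K) / (1 + N * x K)) := by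
    intro K
    induction K with
    | zero => simp
    | succ K ih =>
      rw [Finset.sum_range_succ]
      have hxK := hx.1 K
      have hxK' := hx.1 (K+1)
      have h1 : er x N K ≤ min (1 / (1 + N * x K)) (N * x K) :=
        min_le_min (pow_le_inv _ hxK.le (by have := hx.le_half K; linarith) _)
          (one_sub_pow_le _ (by have := hx.le_half K; linarith) _)
      have h2 := min_le_tele (N * x K) (N * x (K+1)) (by positivity) (by positivity) (by
        have := hx.2.2 K
        have hN : (0:ℝ) ≤ N := Nat.cast_nonneg N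
        nlinarith)
      linarith
  refine (key K).trans ?_
  have h0 := hx.1 0
  have hK := hx.1 K
  have h1 : (N * x 0) / (1 + N * x 0) ≤ 1 := by
    rw [div_le_one (by positivity)]; linarith
  have h2 : 0 ≤ (N * x K) / (1 + N * x K) := by positivity
  linarith

theorem Sparse.er_summable (hx : Sparse x) (N : ℕ) : Summable (er x N) :=
  summable_of_sum_range_le (hx.er_nonneg N) (hx.er_sum_le N)

theorem Sparse.er_tsum_le (hx : Sparse x) (N : ℕ) : ∑' k, er x N k ≤ 6 :=
  Real.tsum_le_of_sum_range_le (hx.er_nonneg N) (hx.er_sum_le N)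

/-- partial sums of weights -/
theorem Sparse.sum_wt (hx : Sparse x) (N : ℕ) :
    ∑ n ∈ range N, wt x n = ∑' k, (1 - (1 - x k)^N) := by
  simp only [wt]
  rw [← Summable.tsum_finsetSum (fun n _ => hx.summable_wt n)]
  congr 1
  funext k
  exact geom (x k) N

theorem Sparse.summable_one_sub (hx : Sparse x) (N : ℕ) :
    Summable (fun k => 1 - (1 - x k)^N) := by
  have : (fun k => 1 - (1 - x k)^N) = fun k => ∑ n ∈ range N, x k * (1 - x k)^n := by
    funext k; exact (geom (x k) N).symm
  rw [this]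
  exact summable_sum (fun n _ => hx.summable_wt n)

theorem Sparse.tendsto_sum_wt (hx : Sparse x) :
    Tendsto (fun N => ∑ n ∈ range N, wt x n) atTop atTop := by
  rw [tendsto_atTop]
  intro M
  obtain ⟨K, hK⟩ := exists_nat_gt M
  have h1 : Tendsto (fun N : ℕ => ∑ k ∈ range K, (1 - (1 - x k)^N)) atTop
      (nhds (∑ k ∈ range K, (1 - 0))) := by
    refine tendsto_finsetSum _ (fun k _ => ?_)
    exact tendsto_const_nhds.sub (tendsto_pow_atTop_nhds_zero_of_lt_one (hx.one_sub_nonneg k)
      (by have := hx.1 k; linarith))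
  have h2 : (∑ k ∈ range K, ((1:ℝ) - 0)) = K := by simp
  rw [h2] at h1
  have h3 := h1.eventually (eventually_gt_nhds hK)
  filter_upwards [h3] with N hN
  rw [hx.sum_wt]
  have h4 : ∑ k ∈ range K, (1 - (1 - x k)^N) ≤ ∑' k, (1 - (1 - x k)^N) := by
    refine (hx.summable_one_sub N).sum_le_tsum _ (fun k _ => ?_)
    have := hx.pow_le_one N k
    linarith
  linarith

/-- Abel mean with parameter `y = 1 - t` -/
noncomputable def abel (s : ℕ → ℝ) (y : ℝ) : ℝ := ∑' n, y * (1 - y)^n * s n

theorem summable_abel (s : ℕ → ℝ) (B : ℝ) (hB : ∀ n, |s n| ≤ B) (y : ℝ) (h0 : 0 < y) (h1 : y ≤ 1) :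
    Summable (fun n => y * (1 - y)^n * s n) := by
  have hg : Summable (fun n : ℕ => y * (1 - y)^n * B) :=
    ((summable_geometric_of_lt_one (by linarith) (by linarith)).mul_left y).mul_right B
  refine Summable.of_norm_bounded hg (fun n => ?_)
  rw [Real.norm_eq_abs, abs_mul]
  have h2 : 0 ≤ y * (1-y)^n := mul_nonneg h0.le (pow_nonneg (by linarith) _)
  rw [abs_of_nonneg h2]
  exact mul_le_mul_of_nonneg_left (hB n) h2

theorem abel_partial (s : ℕ → ℝ) (B : ℝ) (hB : ∀ n, |s n| ≤ B) (y : ℝ) (h0 : 0 < y) (h1 : y ≤ 1)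
    (N : ℕ) : |abel s y - ∑ n ∈ range N, y * (1 - y)^n * s n| ≤ B * (1 - y)^N := by
  have hs := summable_abel s B hB y h0 h1
  have h2 : abel s y - ∑ n ∈ range N, y * (1 - y)^n * s n =
      ∑' n, y * (1 - y)^(n + N) * s (n + N) := by
    rw [abel, ← hs.sum_add_tsum_nat_add N]
    ring
  rw [h2]
  have hg : Summable (fun n : ℕ => B * (1 - y)^N * (y * (1 - y)^n)) :=
    ((summable_geometric_of_lt_one (by linarith) (by linarith)).mul_left y).mul_left _
  have h3 : ∑' n : ℕ, B * (1 - y)^N * (y * (1 - y)^n) = B * (1-y)^N := by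
    rw [tsum_mul_left, tsum_mul_left, tsum_geometric_of_lt_one (by linarith) (by linarith)]
    have : y * (1 - (1 - y))⁻¹ = 1 := by
      rw [sub_sub_cancel]; exact mul_inv_cancel₀ h0.ne'
    rw [this, mul_one]
  rw [← h3]
  have h4 : ∀ n : ℕ, ‖y * (1 - y)^(n + N) * s (n + N)‖ ≤ B * (1 - y)^N * (y * (1 - y)^n) := by
    intro n
    rw [Real.norm_eq_abs, abs_mul]
    have h5 : 0 ≤ y * (1-y)^(n+N) := mul_nonneg h0.le (pow_nonneg (by linarith) _)
    rw [abs_of_nonneg h5]
    calc y * (1-y)^(n+N) * |s (n+N)| ≤ y * (1-y)^(n+N) * B := mul_le_mul_of_nonneg_left (hB _) h5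
      _ = _ := by rw [pow_add]; ring
  exact tsum_of_norm_bounded hg.hasSum h4

theorem abs_abel_le (s : ℕ → ℝ) (B : ℝ) (hB : ∀ n, |s n| ≤ B) (y : ℝ) (h0 : 0 < y) (h1 : y ≤ 1) :
    |abel s y| ≤ B := by
  simpa using abel_partial s B hB y h0 h1 0

/-- main convergence lemma -/
theorem Sparse.tendsto_mean (hx : Sparse x) (s : ℕ → ℝ) (B : ℝ) (hB : ∀ n, |s n| ≤ B) (a : ℝ)
    (ha : Tendsto (fun k => abel s (x k)) atTop (nhds a)) :
    Tendsto (fun N : ℕ => (∑ n ∈ range N, wt x n * s n) / (∑ n ∈ range N, wt x n)) atTop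
      (nhds a) := by
  have hB0 : 0 ≤ B := (abs_nonneg _).trans (hB 0)
  set C : ℝ := B + |a| with hC
  have hC0 : 0 ≤ C := by positivity
  have hsa : ∀ n, |s n - a| ≤ C := fun n => (abs_sub _ _).trans (by linarith [hB n])
  have hA : ∀ k, |abel s (x k) - a| ≤ C := fun k =>
    (abs_sub _ _).trans (by
      linarith [abs_abel_le s B hB (x k) (hx.1 k) (by have := hx.le_half k; linarith)])
  -- coefficients
  let c : ℕ → ℕ → ℝ := fun N k => ∑ n ∈ range N, x k * (1 - x k)^n * (s n - a)
  have hc_eq : ∀ N k, c N k = (abel s (x k) - a) - (abel s (x k) -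
      ∑ n ∈ range N, x k * (1 - x k)^n * s n) + a * (1 - x k)^N := by
    intro N k
    have e1 : c N k = ∑ n ∈ range N, x k * (1 - x k)^n * s n - a * (1 - (1 - x k)^N) := by
      rw [← geom, Finset.mul_sum, ← Finset.sum_sub_distrib]
      apply Finset.sum_congr rfl
      intro n _
      ring
    rw [e1]; ring
  have hc1 : ∀ N k, |c N k| ≤ C * (1 - (1 - x k)^N) := by
    intro N k
    rw [← geom, Finset.mul_sum]
    refine (Finset.abs_sum_le_sum_abs _ _).trans (Finset.sum_le_sum (fun n _ => ?_))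
    have h5 : 0 ≤ x k * (1-x k)^n := mul_nonneg (hx.1 k).le (pow_nonneg (hx.one_sub_nonneg k) _)
    rw [abs_mul, abs_of_nonneg h5, mul_comm C]
    exact mul_le_mul_of_nonneg_left (hsa n) h5
  have hc2 : ∀ N k, |c N k| ≤ |abel s (x k) - a| + C * (1 - x k)^N := by
    intro N k
    rw [hc_eq]
    have hp : 0 ≤ (1 - x k)^N := pow_nonneg (hx.one_sub_nonneg k) _
    have h1 := abel_partial s B hB (x k) (hx.1 k) (by have := hx.le_half k; linarith) N
    have h2 : |a * (1 - x k)^N| = |a| * (1 - x k)^N := by rw [abs_mul, abs_of_nonneg hp]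
    calc _ ≤ |abel s (x k) - a - (abel s (x k) - ∑ n ∈ range N, x k * (1 - x k)^n * s n)|
          + |a * (1 - x k)^N| := abs_add_le _ _
      _ ≤ |abel s (x k) - a| + |abel s (x k) - ∑ n ∈ range N, x k * (1 - x k)^n * s n|
          + |a| * (1 - x k)^N := by rw [h2]; gcongr; exact abs_sub _ _
      _ ≤ _ := by rw [hC]; nlinarith
  have hc3 : ∀ N k, |c N k| ≤ |abel s (x k) - a| * (1 - (1 - x k)^N) + 2 * C * er x N k := by
    intro N k
    have hp : 0 ≤ (1 - x k)^N := pow_nonneg (hx.one_sub_nonneg k) _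
    have hp1 := hx.pow_le_one N k
    have hAk := hA k
    have hAk0 := abs_nonneg (abel s (x k) - a)
    rcases min_choice ((1 - x k)^N) (1 - (1 - x k)^N) with h | h
    · rw [er, h]
      have := hc2 N k
      nlinarith
    · rw [er, h]
      have := hc1 N k
      have h6 : 0 ≤ |abel s (x k) - a| * (1 - (1 - x k)^N) := mul_nonneg hAk0 (by linarith)
      have h7 : 0 ≤ C * (1 - (1 - x k)^N) := mul_nonneg hC0 (by linarith)
      linarith
  have hnum : ∀ N, ∑ n ∈ range N, wt x n * (s n - a) = ∑' k, c N k := by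
    intro N
    simp only [wt, c]
    rw [Summable.tsum_finsetSum]
    · apply Finset.sum_congr rfl
      intro n _
      rw [← tsum_mul_right]
    · intro n _
      exact (hx.summable_wt n).mul_right _
  -- tends to zero
  have hW := hx.tendsto_sum_wt
  have key : Tendsto (fun N : ℕ => (∑ n ∈ range N, wt x n * (s n - a)) /
      (∑ n ∈ range N, wt x n)) atTop (nhds 0) := by
    rw [Metric.tendsto_atTop]
    intro ε hε
    have ha' := Metric.tendsto_atTop.mp ha (ε/2) (by positivity)
    obtain ⟨K, hK⟩ := ha'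
    have hbound : ∀ N, |∑ n ∈ range N, wt x n * (s n - a)| ≤
        ε / 2 * (∑ n ∈ range N, wt x n) + (K * C + 12 * C) := by
      intro N
      rw [hnum]
      have hsum1 : Summable (fun k => ε/2 * (1 - (1 - x k)^N)) :=
        (hx.summable_one_sub N).mul_left _
      have hsum2 : Summable (fun k => (if k < K then C else 0 : ℝ)) := by
        apply summable_of_ne_finset_zero (s := range K)
        intro b hb
        rw [Finset.mem_range] at hb
        simp [hb]
      have hsum3 : Summable (fun k => 2 * C * er x N k) := (hx.er_summable N).mul_left _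
      have hle : ∀ k, ‖c N k‖ ≤ ε/2 * (1 - (1 - x k)^N) + (if k < K then C else 0)
          + 2 * C * er x N k := by
        intro k
        rw [Real.norm_eq_abs]
        refine (hc3 N k).trans ?_
        have hp : 0 ≤ (1 - x k)^N := pow_nonneg (hx.one_sub_nonneg k) _
        have hp1 := hx.pow_le_one N k
        have : |abel s (x k) - a| * (1 - (1 - x k)^N) ≤ ε/2 * (1 - (1 - x k)^N)
            + (if k < K then C else 0) := by
          split_ifs with hkK
          · have := hA k
            have := abs_nonneg (abel s (x k) - a)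
            have : 0 ≤ ε/2 * (1 - (1 - x k)^N) := mul_nonneg (by positivity) (by linarith)
            nlinarith
          · have h8 := hK k (by omega)
            rw [Real.dist_eq] at h8
            rw [add_zero]
            exact mul_le_mul_of_nonneg_right h8.le (by linarith)
        linarith
      have h9 := tsum_of_norm_bounded ((hsum1.add hsum2).add hsum3).hasSum hle
      rw [Real.norm_eq_abs] at h9
      refine h9.trans ?_
      rw [(hsum1.add hsum2).tsum_add hsum3, hsum1.tsum_add hsum2, tsum_mul_left, tsum_mul_left,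
        ← hx.sum_wt]
      have h10 : ∑' k, (if k < K then C else 0 : ℝ) = K * C := by
        rw [tsum_eq_sum (s := range K)]
        · rw [Finset.sum_congr rfl (fun k hk => if_pos (Finset.mem_range.mp hk))]
          rw [Finset.sum_const, Finset.card_range, nsmul_eq_mul]
        · intro b hb
          rw [Finset.mem_range] at hb
          simp [hb]
      rw [h10]
      have := hx.er_tsum_le N
      nlinarith
    have h11 := hW.eventually_gt_atTop (2 * (K * C + 12 * C) / ε + 1)
    obtain ⟨N0, hN0⟩ := eventually_atTop.mp h11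
    refine ⟨N0, fun N hN => ?_⟩
    have h12 := hN0 N hN
    have h13 : 0 ≤ 2 * (K * C + 12 * C) / ε := by positivity
    have hWpos : 0 < ∑ n ∈ range N, wt x n := by linarith
    rw [dist_zero_right, Real.norm_eq_abs, abs_div, abs_of_pos hWpos, div_lt_iff₀ hWpos]
    refine lt_of_le_of_lt (hbound N) ?_
    have h14 : 2 * (K * C + 12 * C) / ε < ∑ n ∈ range N, wt x n := by linarith
    rw [div_lt_iff₀ hε] at h14
    nlinarith
  have hfin : (fun N : ℕ => (∑ n ∈ range N, wt x n * s n) / (∑ n ∈ range N, wt x n))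
      =ᶠ[atTop] (fun N : ℕ => (∑ n ∈ range N, wt x n * (s n - a)) /
      (∑ n ∈ range N, wt x n) + a) := by
    filter_upwards [hW.eventually_gt_atTop 0] with N hN
    have : ∑ n ∈ range N, wt x n * (s n - a) =
        ∑ n ∈ range N, wt x n * s n - (∑ n ∈ range N, wt x n) * a := by
      rw [Finset.sum_mul, ← Finset.sum_sub_distrib]
      apply Finset.sum_congr rfl
      intro n _
      ring
    rw [this, sub_div, mul_div_assoc, mul_comm, div_mul_eq_mul_div]
    field_simp
    ring
  rw [tendsto_congr' hfin]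
  simpa using key.add_const a

end Pool.Agent.Work.MP_968b24_an
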