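import Mathlib

set_option autoImplicit false

namespace Pool.Agent.Work.MP_968b24_an

open Filter Finset

/-- iterated differences: `iterDiff l 0 n = l n` and
`iterDiff l (k+1) n = iterDiff l k n - iterDiff l k (n+1)` -/
def iterDiff (l : ℕ → ℝ) : ℕ → ℕ → ℝ
  | 0, n => l n
  | (k+1), n => iterDiff l k n - iterDiff l k (n+1)

/-- condition (4a): all iterated differences of order at least one are nonnegative,
for indices `n = 1, 2, ...` -/
def FullyMonotonic (l : ℕ → ℝ) : Prop :=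
  ∀ k n : ℕ, 1 ≤ k → 1 ≤ n → 0 ≤ iterDiff l k n

/-- condition (4b): the sequence `l 1, l 2, ...` is nonincreasing -/
def Nonincreasing (l : ℕ → ℝ) : Prop := ∀ n : ℕ, 1 ≤ n → l (n+1) ≤ l n

/-- `l` is admissible for `s`, the weighted means converging to `L`.
Sequences are indexed by `n = 1, 2, ...`; the values at `0` play no role. -/
def AdmissibleWithLimit (s l : ℕ → ℝ) (L : ℝ) : Prop :=
  (∀ n : ℕ, 1 ≤ n → 0 < l n) ∧
  Tendsto (fun n : ℕ => ∑ i ∈ Icc 1 n, l i) atTop atTop ∧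
  Tendsto (fun n : ℕ => (∑ i ∈ Icc 1 n, l i * s i) / (∑ i ∈ Icc 1 n, l i)) atTop (nhds L)

end Pool.Agent.Work.MP_968b24_an
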